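import Pool.Agent.Lib.MP_d40963_nt.Main

set_option autoImplicit false

namespace Pool.Agent.Results.MP_d40963_nt.SmallExp

open Pool.Agent.Lib.MP_d40963_nt

/-- For all large primes `p`, the conjecture holds for every exponent `s` such that `s` or its
inverse is congruent mod `p - 1` to a natural number `a` with `50 a^5 ≤ p`. -/
theorem result :
    ∃ C : ℕ, ∀ p : ℕ, p.Prime → C ≤ p → ∀ s : ℕ, Nat.Coprime s (p - 1) →
      ¬ (s ≡ 1 [MOD p - 1]) →
      (Set.range (fun v : ZMod p =>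
          Nat.card {xy : ZMod p × ZMod p //
            xy.1 + xy.2 = 1 ∧ xy.1 ^ s + xy.2 ^ s = v})).ncard ≤ 3 →
      ∀ a : ℕ, 50 * a ^ 5 ≤ p → (s ≡ a [MOD p - 1] ∨ a * s ≡ 1 [MOD p - 1]) →
        (s ≡ 3 [MOD p - 1] ∨ 3 * s ≡ 1 [MOD p - 1]) := by
  obtain ⟨N, hN⟩ := not_nice
  refine ⟨N + 3, fun p hp hC s hs h1 hn a ha h => ?_⟩
  have : Fact p.Prime := ⟨hp⟩
  have hodd : ∀ t : ℕ, t.Coprime (p - 1) → Odd t := fun t ht =>
    Nat.coprime_two_right.1 (ht.coprime_dvd_right (hp.even_sub_one (by omega)).two_dvd)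
  have hzero : ∀ t : ℕ, t.Coprime (p - 1) → Nv t (0 : ZMod p) = 0 := fun t ht =>
    Nv_zero (hodd t ht) (pow_inj (hodd t ht).pos.ne' (by rwa [ZMod.card]))
  have hac : a.Coprime (p - 1) := by
    rcases h with h | h
    · rwa [Nat.Coprime, ← h.gcd_eq]
    · exact Nat.coprime_of_mul_modEq_one s h
  have hao := hodd a hac
  have ha1 : a ≠ 1 := by rintro rfl; exact h1 (h.elim id fun h => by rwa [one_mul] at h)
  by_cases ha3 : a = 3
  · rwa [ha3] at h
  refine absurd (le_trans (Set.ncard_le_ncard ?_ (Set.finite_range _)) hn)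
    (hN p (by omega) a hao (by rw [Nat.odd_iff] at hao; omega) ha (hzero a hac))
  rintro _ ⟨w, rfl⟩
  rcases h with h | h
  · exact ⟨w, by
      simp only [Nv, pow_congr (F := ZMod p) (hodd s hs).pos.ne' hao.pos.ne' (by rwa [ZMod.card])]⟩
  · rcases eq_or_ne w 0 with rfl | hw
    · exact ⟨0, (hzero s hs).trans (hzero a hac).symm⟩
    · refine ⟨_, (Nv_inv (fun x => ?_) hw).symm⟩
      rw [← pow_mul, pow_congr (hao.mul (hodd s hs)).pos.ne' one_ne_zero (by rwa [ZMod.card]),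
        pow_one]

end Pool.Agent.Results.MP_d40963_nt.SmallExp
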