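import Pool.Agent.Lib.MP_d40963_nt.W.Core

set_option autoImplicit false

namespace Pool.Agent.Results.MP_d40963_nt.SmallHeight

/-- For all large primes `p`, the conjecture holds for every exponent `s` that satisfies a
congruence `B s = A` mod `p - 1` with integers `B ≠ 0` and `A` of size `(|A| + |B|) ^ 117 ≤ p`. -/
theorem result :
    ∃ C : ℕ, ∀ p : ℕ, p.Prime → C ≤ p → ∀ s : ℕ, Nat.Coprime s (p - 1) →
      ¬ (s ≡ 1 [MOD p - 1]) →
      (Set.range (fun v : ZMod p =>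
          Nat.card {xy : ZMod p × ZMod p //
            xy.1 + xy.2 = 1 ∧ xy.1 ^ s + xy.2 ^ s = v})).ncard ≤ 3 →
      ∀ A B : ℤ, B ≠ 0 → (|A| + |B|) ^ 117 ≤ p → B * s ≡ A [ZMOD p - 1] →
      ((s ≡ 3 [MOD p - 1] ∨ 3 * s ≡ 1 [MOD p - 1]) ∨
       (s ≡ p - 2 [MOD p - 1] ∨ (p - 2) * s ≡ 1 [MOD p - 1])) :=
  Pool.Agent.NW.top Pool.Agent.NW.core (by norm_num)

end Pool.Agent.Results.MP_d40963_nt.SmallHeight
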